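import Pool.Agent.Helper13.TR.StC

/-!
# Project TR, module UPB: at most two sides
-/

set_option autoImplicit false

namespace Pool.Agent.Helper34.TR

open Set Topology Pool.Agent.Helper13.TR

/-- boundaries of relative boundaries are invisible for saturated sets -/
private theorem ev_nul (hJOI : StJOI) (hSDA : StSDA) (X : Type) [TopologicalSpace X] (B T : Set X)
    (hT : ∀ p q : X, JoinedIn Bᶜ p q → (p ∈ T ↔ q ∈ T)) (κ : Ch X 1) (hκ : κ ∈ Nul B 1) :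
    ev T (bd 0 κ) = 0 := by
  obtain ⟨ρ, hρ, w, ⟨β, hβ⟩, rfl⟩ := Submodule.mem_sup.1 hκ
  rw [← hβ, map_add, map_add, (hSDA X).1 0 β, map_zero, add_zero]
  exact (hJOI X Bᶜ).2.1 T hT ρ hρ

theorem hUPB (hCYC : StCYC) (hJOI : StJOI) (_hMON : StMON) (hSDA : StSDA) : StUPB := by
  intro A _ _ _ hHM t a b c ha hb hc
  by_contra hcon
  push Not at hcon
  obtain ⟨nab, nbc, nac⟩ := hcon
  obtain ⟨B, hB⟩ : ∃ B : Set (ℝ × ℝ × A), B = {p : ℝ × ℝ × A | p.2.2 = t} := ⟨_, rfl⟩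
  obtain ⟨ε, _, hcyc⟩ := hCYC A hHM t
  rw [← hB] at hcyc
  -- the points
  obtain ⟨P, hP⟩ : ∃ P : A → ℝ × ℝ × A, P = fun x => ((0 : ℝ), (0 : ℝ), x) := ⟨_, rfl⟩
  have hPB : ∀ x : A, x ≠ t → P x ∈ Bᶜ := by
    intro x hx
    rw [hP, hB]
    exact hx
  -- path chains
  have hch : ∀ x y : A, x ≠ t → y ≠ t → ∃ e : Ch (ℝ × ℝ × A) 1,
      bd 0 e = Finsupp.single (pt (P y)) 1 - Finsupp.single (pt (P x)) 1 ∧ e ∈ Cyc B 1 := by
    intro x y hx hy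
    have hj : JoinedIn (univ : Set (ℝ × ℝ × A)) (P x) (P y) :=
      joinedIn_univ.2 (PathConnectedSpace.joined _ _)
    obtain ⟨e, _, he⟩ := (hJOI (ℝ × ℝ × A) univ).1 (P x) (P y) hj
    refine ⟨e, he, ?_⟩
    show bd 0 e ∈ cin Bᶜ 0
    rw [he]
    exact Submodule.sub_mem _ ((hJOI (ℝ × ℝ × A) Bᶜ).2.2.2.2 _ (hPB y hy))
      ((hJOI (ℝ × ℝ × A) Bᶜ).2.2.2.2 _ (hPB x hx))
  obtain ⟨e₁, d₁, c₁⟩ := hch a b ha hb
  obtain ⟨e₂, d₂, c₂⟩ := hch a c ha hc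
  obtain ⟨m₁, n₁⟩ := hcyc e₁ c₁
  obtain ⟨m₂, n₂⟩ := hcyc e₂ c₂
  -- the saturated sets
  obtain ⟨T, hTd⟩ : ∃ T : A → Set (ℝ × ℝ × A),
      T = fun x => {p : ℝ × ℝ × A | JoinedIn {t}ᶜ x p.2.2} := ⟨_, rfl⟩
  have hT : ∀ x : A, ∀ p q : ℝ × ℝ × A, JoinedIn Bᶜ p q → (p ∈ T x ↔ q ∈ T x) := by
    intro x p q hpq
    have h1 : JoinedIn ({t}ᶜ : Set A) p.2.2 q.2.2 := by
      have h2 := hpq.map (f := fun p : ℝ × ℝ × A => p.2.2) (continuous_snd.comp continuous_snd)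
      refine h2.mono ?_
      rintro _ ⟨r, hr, rfl⟩
      rw [hB] at hr
      exact hr
    rw [hTd]
    exact ⟨fun h => h.trans h1, fun h => h.trans h1.symm⟩
  have hin : ∀ x : A, x ≠ t → P x ∈ T x := by
    intro x hx
    rw [hTd, hP]
    exact JoinedIn.refl hx
  have hout : ∀ x y : A, ¬ JoinedIn {t}ᶜ x y → P y ∉ T x := by
    intro x y hxy h
    rw [hTd, hP] at h
    exact hxy h
  have e1 := fun (x y : A) (h : P y ∈ T x) => ((hJOI (ℝ × ℝ × A) univ).2.2.1 (T x) (P y)).1 h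
  have e0 := fun (x y : A) (h : P y ∉ T x) => ((hJOI (ℝ × ℝ × A) univ).2.2.1 (T x) (P y)).2 h
  have hκ : m₂ • e₁ - m₁ • e₂ ∈ Nul B 1 := by
    have h1 := Submodule.sub_mem _ (Submodule.smul_mem _ m₂ n₁) (Submodule.smul_mem _ m₁ n₂)
    have h2 : m₂ • (e₁ - m₁ • ε) - m₁ • (e₂ - m₂ • ε) = m₂ • e₁ - m₁ • e₂ := by
      rw [smul_sub, smul_sub, smul_smul, smul_smul, mul_comm m₂ m₁]
      abel
    rw [h2] at h1
    exact h1
  have nba : ¬ JoinedIn {t}ᶜ b a := fun h => nab h.symm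
  have nca : ¬ JoinedIn {t}ᶜ c a := fun h => nac h.symm
  have ncb : ¬ JoinedIn {t}ᶜ c b := fun h => nbc h.symm
  have k1 := ev_nul hJOI hSDA (ℝ × ℝ × A) B (T b) (hT b) _ hκ
  have k2 := ev_nul hJOI hSDA (ℝ × ℝ × A) B (T c) (hT c) _ hκ
  simp only [map_sub, map_smul, d₁, d₂] at k1 k2
  rw [e1 b b (hin b hb), e0 b a (hout b a nba), e0 b c (hout b c nbc)] at k1
  rw [e1 c c (hin c hc), e0 c a (hout c a nca), e0 c b (hout c b ncb)] at k2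
  simp only [smul_eq_mul, sub_zero, mul_one, mul_zero, zero_sub, sub_self] at k1 k2
  have hm1 : m₁ = 0 := by omega
  rw [hm1, zero_smul, sub_zero] at n₁
  have k3 := ev_nul hJOI hSDA (ℝ × ℝ × A) B (T b) (hT b) _ n₁
  rw [d₁, map_sub, e1 b b (hin b hb), e0 b a (hout b a nba)] at k3
  omega

end Pool.Agent.Helper34.TR
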